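import Pool.Agent.Lib.MP_b5021c_nt.IfaceOF

/-!
# Board b5, row OF_FC3: the face of three exponents (`Fc3S`)

The face is `v (1 - x₀x₂) - A (1 - x₀)(1 - x₁)(1 - x₂)`, `v = D₀ + A`.
-/

namespace Pool.Agent.B5.OF97

open scoped LaurentPolynomial
open Polynomial

/-- A square root with positive real part. -/
theorem sq_root (w : ℂ) (hw : w.im ≠ 0) : ∃ s : ℂ, s ^ 2 = w ∧ 0 < s.re := by
  have hw0 : w ≠ 0 := by
    rintro rfl
    simp at hw
  have h0 : 0 < ‖w‖ := norm_pos_iff.mpr hw0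
  refine ⟨((‖w‖ ^ ((1 : ℝ) / 2) : ℝ) : ℂ) * Complex.exp (((w.arg / 2 : ℝ) : ℂ) * Complex.I), ?_, ?_⟩
  · rw [mul_pow, ← Complex.exp_nat_mul, ← Complex.ofReal_pow, ← Real.rpow_natCast,
      ← Real.rpow_mul h0.le]
    have h1 : (1 : ℝ) / 2 * ((2 : ℕ) : ℝ) = 1 := by norm_num
    have h2 : ((2 : ℕ) : ℂ) * (((w.arg / 2 : ℝ) : ℂ) * Complex.I) = (w.arg : ℂ) * Complex.I := by
      push_cast
      ring
    rw [h1, Real.rpow_one, h2, Complex.norm_mul_exp_arg_mul_I]
  · rw [Complex.re_ofReal_mul, Complex.exp_ofReal_mul_I_re]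
    have h3 := Complex.neg_pi_lt_arg w
    have h4 := Complex.arg_le_pi w
    have h5 : w.arg ≠ Real.pi := by
      intro h
      exact hw (Complex.arg_eq_pi_iff.mp h).2
    have h6 := lt_of_le_of_ne h4 h5
    exact mul_pos (Real.rpow_pos_of_pos h0 _)
      (Real.cos_pos_of_mem_Ioo ⟨by linarith, by linarith⟩)

/-- The three variable inequality has no solution with `v conj a` not real. -/
theorem no_three (v a : ℂ) (hva : (v * (starRingEnd ℂ) a).im ≠ 0)
    (h : ∀ x : Fin 3 → ℂ, (∀ i, ‖x i‖ < 1) →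
      v * (1 - x 0 * x 2) ≠ a * ((1 - x 0) * (1 - x 1) * (1 - x 2))) : False := by
  have ha : a ≠ 0 := by
    rintro rfl
    simp at hva
  have hw : (v / a).im ≠ 0 := by
    have h1 : v / a = v * (starRingEnd ℂ) a * ((Complex.normSq a)⁻¹ : ℝ) := by
      rw [Complex.ofReal_inv, ← Complex.mul_conj]
      have h2 : (starRingEnd ℂ) a ≠ 0 := by simpa using ha
      field_simp
    rw [h1, Complex.im_mul_ofReal]
    exact mul_ne_zero hva (inv_ne_zero (by simpa using ha))
  obtain ⟨s, hs, hre⟩ := sq_root (v / a) hw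
  have hs0 : s ≠ 0 := by
    rintro rfl
    simp at hre
  have hn : 0 < Complex.normSq s := Complex.normSq_pos.mpr hs0
  set d : ℝ := s.re / Complex.normSq s with hd
  have hd0 : 0 < d := div_pos hre hn
  have hdn : d * Complex.normSq s = s.re := by
    rw [hd, div_mul_cancel₀ _ hn.ne']
  set W : ℂ := s / (d : ℂ) with hW
  have hdC : (d : ℂ) ≠ 0 := by exact_mod_cast hd0.ne'
  have hWre : 0 < W.re := by
    have h1 : W = ((d)⁻¹ : ℝ) * s := by
      rw [hW]
      push_cast
      field_simp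
    rw [h1, Complex.re_ofReal_mul]
    positivity
  have hW1 : 1 + W ≠ 0 := by
    intro h1
    have h2 := congrArg Complex.re h1
    simp only [Complex.add_re, Complex.one_re, Complex.zero_re] at h2
    linarith
  have hx0 : ‖(1 - W) / (1 + W)‖ < 1 := by
    rw [norm_div, div_lt_one (norm_pos_iff.mpr hW1)]
    rw [← sq_lt_sq₀ (norm_nonneg _) (norm_nonneg _), ← Complex.normSq_eq_norm_sq,
      ← Complex.normSq_eq_norm_sq, Complex.normSq_apply, Complex.normSq_apply]
    simp only [Complex.sub_re, Complex.sub_im, Complex.add_re, Complex.add_im, Complex.one_re,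
      Complex.one_im]
    nlinarith
  have hx1 : ‖1 - (d : ℂ) * s‖ < 1 := by
    have h1 : ‖1 - (d : ℂ) * s‖ ^ 2 < 1 ^ 2 := by
      rw [← Complex.normSq_eq_norm_sq, Complex.normSq_apply]
      simp only [Complex.sub_re, Complex.sub_im, Complex.one_re, Complex.one_im,
        Complex.re_ofReal_mul, Complex.im_ofReal_mul]
      have h2 : d * (d * (s.re * s.re + s.im * s.im)) = d * s.re := by
        rw [← Complex.normSq_apply, hdn]
      nlinarith [mul_pos hd0 hre]
    exact (sq_lt_sq₀ (norm_nonneg _) zero_le_one).mp h1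
  refine h ![(1 - W) / (1 + W), 1 - (d : ℂ) * s, (1 - W) / (1 + W)] ?_ ?_
  · intro i
    fin_cases i
    · exact hx0
    · exact hx1
    · exact hx0
  · have h0 : (![(1 - W) / (1 + W), 1 - (d : ℂ) * s, (1 - W) / (1 + W)] :
        Fin 3 → ℂ) 0 = (1 - W) / (1 + W) := rfl
    have h1 : (![(1 - W) / (1 + W), 1 - (d : ℂ) * s, (1 - W) / (1 + W)] :
        Fin 3 → ℂ) 1 = 1 - (d : ℂ) * s := rfl
    have h2 : (![(1 - W) / (1 + W), 1 - (d : ℂ) * s, (1 - W) / (1 + W)] :
        Fin 3 → ℂ) 2 = (1 - W) / (1 + W) := rfl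
    rw [h0, h1, h2]
    have h4 : v = a * s ^ 2 := by
      rw [hs]
      field_simp
    have h5 : 1 - (1 - W) / (1 + W) * ((1 - W) / (1 + W)) = 4 * W / (1 + W) ^ 2 := by
      field_simp
      ring
    have h6 : 1 - (1 - W) / (1 + W) = 2 * W / (1 + W) := by
      field_simp
      ring
    have h7 : W * (d : ℂ) = s := by
      rw [hW, div_mul_cancel₀ _ hdC]
    rw [h4, h5, h6]
    have h8 : a * (2 * W / (1 + W) * (1 - (1 - (d : ℂ) * s)) * (2 * W / (1 + W))) =
        a * (4 * W / (1 + W) ^ 2 * ((W * (d : ℂ)) * s)) := by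
      field_simp
      ring
    rw [h8, h7]
    ring

/-- The sum over the subsets of `Fin 3`. -/
theorem sum_sets (f : Finset (Fin 3) → ℂ) (b a : ℂ) (x : Fin 3 → ℂ) (h : f ∅ = b)
    (h0 : f {0} = a * x 0) (h1 : f {1} = a * x 1) (h2 : f {2} = a * x 2)
    (h01 : f {0, 1} = -a * (x 0 * x 1)) (h21 : f {2, 1} = -a * (x 2 * x 1))
    (h02 : f {0, 2} = -(b + 2 * a) * (x 0 * x 2)) (h012 : f {0, 1, 2} = a * (x 0 * x 1 * x 2)) :
    ∑ I : Finset (Fin 3), f I =
      (b + a) * (1 - x 0 * x 2) - a * ((1 - x 0) * (1 - x 1) * (1 - x 2)) := by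
  have hu : (Finset.univ : Finset (Finset (Fin 3))) =
      {∅, {0}, {1}, {2}, {0, 1}, {2, 1}, {0, 2}, {0, 1, 2}} := by decide
  rw [hu, Finset.sum_insert (by decide), Finset.sum_insert (by decide),
    Finset.sum_insert (by decide), Finset.sum_insert (by decide), Finset.sum_insert (by decide),
    Finset.sum_insert (by decide), Finset.sum_insert (by decide), Finset.sum_singleton,
    h, h0, h1, h2, h01, h21, h02, h012]
  ring

/-- (OF_FC3) -/
theorem fc3_st (er : EvRS) (fcm : FcmS) : Fc3S := by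
  intro O _ _ _ _ P L _ _ _ _ _ phi D E e A hD hL hB hE hdis h0 h1 h2 h01 h21 h02 h012 z
  by_contra hne
  refine no_three _ _ hne fun x hx hxe => ?_
  have hy : ∀ i, ‖evR z ((e i : (RO O)ˣ) : RO O) * x i‖ < 1 := fun i => by
    rw [norm_mul, (er O).2.1 z _ (e i).isUnit, one_mul]
    exact hx i
  apply fcm O P L phi D 3 E hD hL hB hE hdis z
    (fun i => evR z ((e i : (RO O)ˣ) : RO O) * x i) hy
  have h3 : ∀ I : Finset (Fin 3), evR z (D.coeff (∑ i ∈ I, E i)) *
      ∏ i ∈ I, (evR z ((e i : (RO O)ˣ) : RO O) * x i) =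
      evR z ((∏ i ∈ I, ((e i : (RO O)ˣ) : RO O)) * D.coeff (∑ i ∈ I, E i)) *
        ∏ i ∈ I, x i := by
    intro I
    rw [Finset.prod_mul_distrib, map_mul, map_prod]
    ring
  rw [Finset.sum_congr rfl fun I _ => h3 I]
  have n01 : (0 : Fin 3) ≠ 1 := by decide
  have n21 : (2 : Fin 3) ≠ 1 := by decide
  have n02 : (0 : Fin 3) ≠ 2 := by decide
  have n12 : (1 : Fin 3) ≠ 2 := by decide
  have n012 : (0 : Fin 3) ∉ ({1, 2} : Finset (Fin 3)) := by decide
  rw [sum_sets (fun I => evR z ((∏ i ∈ I, ((e i : (RO O)ˣ) : RO O)) *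
    D.coeff (∑ i ∈ I, E i)) * ∏ i ∈ I, x i) (evR z (D.coeff 0)) (evR z A) x]
  · rw [← map_add, hxe, sub_self]
  · simp
  · simp only [Finset.prod_singleton, Finset.sum_singleton]
    rw [h0]
  · simp only [Finset.prod_singleton, Finset.sum_singleton]
    rw [h1]
  · simp only [Finset.prod_singleton, Finset.sum_singleton]
    rw [h2]
  · simp only [Finset.prod_pair n01, Finset.sum_pair n01]
    rw [h01]
    simp only [map_neg]
  · simp only [Finset.prod_pair n21, Finset.sum_pair n21]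
    rw [h21]
    simp only [map_neg]
  · simp only [Finset.prod_pair n02, Finset.sum_pair n02]
    rw [h02]
    simp only [map_neg, map_add, map_mul, map_ofNat]
  · simp only [Finset.prod_insert n012, Finset.sum_insert n012, Finset.prod_pair n12,
      Finset.sum_pair n12]
    rw [← mul_assoc ((e 0 : (RO O)ˣ) : RO O), ← add_assoc, h012]
    ring

end Pool.Agent.B5.OF97
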